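import Pool.Agent.J4H27.AB.Log

/-!
# Integral points on the complement of `D`, if `W + D` is big
-/

set_option autoImplicit false
set_option linter.unusedSectionVars false

open MvPolynomial Pool.Agent.TH954.X Pool.Agent.TH954.V Pool.Agent.TH954.Z
  Pool.Agent.TH954.Y NumberField Height

namespace Pool.Agent.J4H27.LV

section one

variable {K : Type} [Field K] {ι : Type} [Fintype ι] {n : ℕ}

/-- the ratio of the sections -/
lemma ratio {E2 E3 : Type} (a : E2 → K) (b : E3 → K) (θ : E2 → E3 → K) (k : ℕ)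
    (h : ∀ i j i' j', θ i j * (a i' * b j') ^ k = θ i' j' * (a i * b j) ^ k)
    (ha : ∃ i, a i ≠ 0) (hb : ∃ j, b j ≠ 0) (hθ : ∃ i j, θ i j ≠ 0) :
    ∃ s : K, s ≠ 0 ∧ ∀ i j, θ i j = s * (a i * b j) ^ k := by
  obtain ⟨i0, hi0⟩ := ha
  obtain ⟨j0, hj0⟩ := hb
  obtain ⟨i1, j1, h1⟩ := hθ
  have hc : (a i0 * b j0) ^ k ≠ 0 := pow_ne_zero _ (mul_ne_zero hi0 hj0)
  have h2 : θ i0 j0 ≠ 0 := by
    intro h3
    have h4 := h i0 j0 i1 j1
    rw [h3, zero_mul] at h4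
    exact mul_ne_zero h1 hc h4.symm
  refine ⟨θ i0 j0 / (a i0 * b j0) ^ k, div_ne_zero h2 hc, fun i j => ?_⟩
  rw [div_mul_eq_mul_div, eq_div_iff hc]
  exact (h i0 j0 i j).symm

/-- the local inequality -/
lemma loc_big {E2 E3 : Type} [Finite E2] [Finite E3] (w : AbsoluteValue K ℝ) (k : ℕ)
    (e : ι → ℕ) (f2 : E2 → MvPolynomial (ι × Fin n) K) (δ2 : E2 → ι → ℕ)
    (f3 : E3 → MvPolynomial (ι × Fin n) K) (δ3 : E3 → ι → ℕ)
    (Θ : E2 → E3 → MvPolynomial (ι × Fin n) K) (δ : E2 → E3 → ι → ℕ)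
    (hδ : ∀ i j o, δ i j o + e o = k * (δ2 i o + δ3 j o))
    (κ : ℝ) (u : ι → Fin n → K) (hu : ∀ j, u j ≠ 0)
    (hκ : ∀ i j, nvW w (δ i j) (Θ i j) u ≤ κ)
    (h2 : ∃ i, ev (f2 i) u ≠ 0) (h3 : ∃ i, ev (f3 i) u ≠ 0)
    (s : K) (hs : s ≠ 0) (hsθ : ∀ i j, ev (Θ i j) u = s * (ev (f2 i) u * ev (f3 j) u) ^ k) :
    Real.log (w s) + ∑ o, (e o : ℝ) * Real.log (⨆ c, w (u o c)) ≤
      Real.log κ + k * (-Real.log (⨆ i, nvW w (δ2 i) (f2 i) u) +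
        -Real.log (⨆ i, nvW w (δ3 i) (f3 i) u)) := by
  have hp2 := sup_nvW_pos w δ2 f2 hu h2
  have hp3 := sup_nvW_pos w δ3 f3 hu h3
  obtain ⟨i0, -⟩ := h2
  obtain ⟨j0, -⟩ := h3
  have : Nonempty E2 := ⟨i0⟩
  have : Nonempty E3 := ⟨j0⟩
  obtain ⟨i, hi⟩ := exists_eq_ciSup_of_finite (f := fun i => nvW w (δ2 i) (f2 i) u)
  obtain ⟨j, hj⟩ := exists_eq_ciSup_of_finite (f := fun i => nvW w (δ3 i) (f3 i) u)
  rw [← hi] at hp2 ⊢
  rw [← hj] at hp3 ⊢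
  have hsup : ∀ o, 0 < ⨆ c, w (u o c) := fun o => sup_posW w (hu o)
  have h4 : w s * (∏ o, (⨆ c, w (u o c)) ^ e o) *
      (nvW w (δ2 i) (f2 i) u * nvW w (δ3 j) (f3 j) u) ^ k = nvW w (δ i j) (Θ i j) u := by
    unfold nvW
    rw [hsθ i j, map_mul, map_pow, map_mul, div_mul_div_comm, div_pow]
    have h5 : ∀ d : ι → ℕ, 0 < ∏ o, (⨆ c, w (u o c)) ^ d o := fun d =>
      Finset.prod_pos (fun o _ => pow_pos (hsup o) _)
    rw [mul_div_assoc', div_eq_div_iff (pow_pos (mul_pos (h5 _) (h5 _)) _).ne' (h5 _).ne']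
    have h6 : ((∏ o, (⨆ c, w (u o c)) ^ δ2 i o) * ∏ o, (⨆ c, w (u o c)) ^ δ3 j o) ^ k =
        (∏ o, (⨆ c, w (u o c)) ^ δ i j o) * ∏ o, (⨆ c, w (u o c)) ^ e o := by
      rw [← Finset.prod_mul_distrib, ← Finset.prod_pow, ← Finset.prod_mul_distrib]
      refine Finset.prod_congr rfl (fun o _ => ?_)
      rw [← pow_add, ← pow_mul, ← pow_add, hδ i j o, mul_comm]
    rw [h6]
    ring
  have h5 := hκ i j
  rw [← h4] at h5
  have hprod : 0 < ∏ o, (⨆ c, w (u o c)) ^ e o :=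
    Finset.prod_pos (fun o _ => pow_pos (hsup o) _)
  have hws : 0 < w s := w.pos hs
  have h6 := Real.log_le_log (mul_pos (mul_pos hws hprod) (pow_pos (mul_pos hp2 hp3) k)) h5
  rw [Real.log_mul (mul_pos hws hprod).ne' (pow_pos (mul_pos hp2 hp3) k).ne',
    Real.log_mul hws.ne' hprod.ne', Real.log_pow, Real.log_mul hp2.ne' hp3.ne',
    Real.log_prod (fun o _ => (pow_pos (hsup o) _).ne')] at h6
  simp_rw [Real.log_pow] at h6
  linarith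

end one

section two

variable {K : Type} [Field K] [NumberField K] {n β : ℕ}

/-- The height inequality for a big divisor. -/
lemma big_le {A : Fin β → AbV K n} {E2 E3 : Type} [Fintype E2] [Fintype E3]
    (f2 : E2 → MvPolynomial (Option (Fin β) × Fin n) K) (δ2 : E2 → Option (Fin β) → ℕ)
    (hf2 : ∀ i, MH (δ2 i) (f2 i))
    (f3 : E3 → MvPolynomial (Option (Fin β) × Fin n) K) (δ3 : E3 → Option (Fin β) → ℕ)
    (hf3 : ∀ i, MH (δ3 i) (f3 i)) (k : ℕ) (e : Fin β → ℕ) (he : ∀ b, 0 < e b)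
    (Θ : E2 → E3 → MvPolynomial (Option (Fin β) × Fin n) K)
    (δ : E2 → E3 → Option (Fin β) → ℕ) (hΘ : ∀ i j, MH (δ i j) (Θ i j))
    (hδ : ∀ i j o, δ i j o + Option.elim o 0 e = k * (δ2 i o + δ3 j o)) :
    ∃ C : ℝ, ∀ (t : Fin n → K) (P : Bp A K), t ≠ 0 →
      (∀ i j i' j', ev (Θ i j) (fl t P) * (ev (f2 i') (fl t P) * ev (f3 j') (fl t P)) ^ k =
        ev (Θ i' j') (fl t P) * (ev (f2 i) (fl t P) * ev (f3 j) (fl t P)) ^ k) →
      (∃ i, ev (f2 i) (fl t P) ≠ 0) → (∃ i, ev (f3 i) (fl t P) ≠ 0) →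
      (∃ i j, ev (Θ i j) (fl t P) ≠ 0) →
      ht P ≤ C + k * (tot (fun w => -Real.log (⨆ i, nvW w (δ2 i) (f2 i) (fl t P))) +
        tot (fun w => -Real.log (⨆ i, nvW w (δ3 i) (f3 i) (fl t P)))) := by
  classical
  choose A0 M0 hM0 hA0 using fun p : E2 × E3 => nvW_le_kap (Θ p.1 p.2) (δ p.1 p.2) (hΘ p.1 p.2)
  set κ : AbsoluteValue K ℝ → ℝ := fun w => ∏ p : E2 × E3, kap (A0 p) (M0 p) 1 w with hκ
  have hlk : ∀ w, Real.log (κ w) = ∑ p : E2 × E3, Real.log (kap (A0 p) (M0 p) 1 w) := by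
    intro w
    rw [hκ]
    simp only
    rw [Real.log_prod]
    exact fun p _ => (zero_lt_one.trans_le (one_le_kap _ (hM0 p) _ _)).ne'
  have hFSk : FS (fun w : AbsoluteValue K ℝ => Real.log (κ w)) := by
    simp_rw [hlk]
    exact FS_sum _ (fun p _ => FS_kap (A0 p) (hM0 p))
  refine ⟨tot (fun w => Real.log (κ w)), fun t P ht0 hrel h2 h3 hθ => ?_⟩
  have hu : ∀ j, fl t P j ≠ 0 := fl_ne_zero ht0 P
  obtain ⟨s, hs, hsθ⟩ := ratio (fun i => ev (f2 i) (fl t P)) (fun j => ev (f3 j) (fl t P))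
    (fun i j => ev (Θ i j) (fl t P)) k hrel h2 h3 hθ
  have hF2 := FS_neg (FS_logsup δ2 f2 hf2 hu h2)
  have hF3 := FS_neg (FS_logsup δ3 f3 hf3 hu h3)
  have hFs := FS_log hs
  have hFu : ∀ o : Option (Fin β), FS (fun w : AbsoluteValue K ℝ =>
      ((Option.elim o 0 e : ℕ) : ℝ) * Real.log (⨆ c, w (fl t P o c))) :=
    fun o => FS_mul (FS_sup' (hu o)) _
  have hloc : ∀ w : AbsoluteValue K ℝ, Real.log (w s) +
      ∑ o : Option (Fin β), ((Option.elim o 0 e : ℕ) : ℝ) * Real.log (⨆ c, w (fl t P o c)) ≤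
      Real.log (κ w) + k * (-Real.log (⨆ i, nvW w (δ2 i) (f2 i) (fl t P)) +
        -Real.log (⨆ i, nvW w (δ3 i) (f3 i) (fl t P))) := by
    intro w
    refine loc_big w k (fun o => Option.elim o 0 e) f2 δ2 f3 δ3 Θ δ hδ (κ w) (fl t P) hu ?_
      h2 h3 s hs hsθ
    intro i j
    refine (hA0 (i, j) w (fl t P) hu).trans ?_
    have h1 : ∏ p ∈ {((i, j) : E2 × E3)}, kap (A0 p) (M0 p) 1 w ≤
        ∏ p : E2 × E3, kap (A0 p) (M0 p) 1 w :=
      Finset.prod_le_prod_of_subset_of_one_le (Finset.subset_univ _)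
        (fun p _ => (zero_lt_one.trans_le (one_le_kap _ (hM0 p) _ _)).le)
        (fun p _ _ => one_le_kap _ (hM0 p) _ _)
    rwa [Finset.prod_singleton] at h1
  have h4 := tot_le (FS_add hFs (FS_sum Finset.univ (fun o _ => hFu o)))
    (FS_add hFSk (FS_mul (FS_add hF2 hF3) (k : ℝ))) (fun v => hloc (ai v)) (fun v => hloc (av v))
  rw [tot_add hFs (FS_sum Finset.univ (fun o _ => hFu o)), tot_log hs, zero_add,
    tot_sum _ (fun o _ => hFu o), tot_add hFSk (FS_mul (FS_add hF2 hF3) (k : ℝ)),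
    tot_mul (FS_add hF2 hF3), tot_add hF2 hF3] at h4
  refine le_trans ?_ h4
  have h5 : ∀ o : Option (Fin β), tot (fun w : AbsoluteValue K ℝ =>
      ((Option.elim o 0 e : ℕ) : ℝ) * Real.log (⨆ c, w (fl t P o c))) =
      ((Option.elim o 0 e : ℕ) : ℝ) * logHeight (fl t P o) := by
    intro o
    rw [tot_mul (FS_sup' (hu o)), tot_sup' (hu o)]
  simp_rw [h5]
  rw [Fintype.sum_option]
  simp only [Option.elim]
  rw [Nat.cast_zero, zero_mul, zero_add]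
  refine Finset.sum_le_sum (fun b _ => ?_)
  have h6 : (1 : ℝ) ≤ e b := by exact_mod_cast he b
  have h7 : 0 ≤ logHeight (vc P b) := logHeight_nonneg _
  change logHeight (vc P b) ≤ (e b : ℝ) * logHeight (vc P b)
  nlinarith

/-- sums over all places and over some of them -/
lemma tot_le_part (g : AbsoluteValue K ℝ → ℝ) (hg : FS g) (S : Finset (FinitePlace K))
    (h : ∀ v ∉ S, g (av v) ≤ 0) :
    tot g ≤ ∑ w : InfinitePlace K, (w.mult : ℝ) * g (ai w) + ∑ v ∈ S, g (av v) := by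
  classical
  unfold tot
  have h1 : ∑ᶠ v : FinitePlace K, g (av v) ≤ ∑ v ∈ S, g (av v) := by
    rw [finsum_eq (hg.toFinset ∪ S) (fun v hv => Finset.mem_union_left _
      ((Set.Finite.mem_toFinset hg).mpr hv))]
    rw [← Finset.sum_subset_zero_on_sdiff (s₁ := S) (s₂ := S) (f := fun v => g (av v))
      (g := fun v => g (av v)) (Finset.Subset.refl S) (by simp) (fun _ _ => rfl)]
    have h2 : ∑ v ∈ (hg.toFinset ∪ S), g (av v) = ∑ v ∈ S, g (av v) +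
        ∑ v ∈ (hg.toFinset ∪ S) \ S, g (av v) := by
      rw [add_comm, Finset.sum_sdiff Finset.subset_union_right]
    rw [h2]
    have h3 : ∑ v ∈ (hg.toFinset ∪ S) \ S, g (av v) ≤ 0 :=
      Finset.sum_nonpos (fun v hv => h v (Finset.mem_sdiff.1 hv).2)
    linarith
  linarith

/-- the points `P` of `Γ` over which there is an integral point of `X` -/
def Itg (A : Fin β → AbV K n) (Γ : AddSubgroup (Bp A K)) {E1 E3 : Type}
    (g : E1 → MvPolynomial (Option (Fin β) × Fin n) K)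
    (f3 : E3 → MvPolynomial (Option (Fin β) × Fin n) K) (δ3 : E3 → Option (Fin β) → ℕ)
    (S : Finset (FinitePlace K)) (c : FinitePlace K → ℝ) : Set (Bp A K) :=
  {P | P ∈ Γ ∧ ∃ t : Fin n → K, t ≠ 0 ∧ (∀ i, ev (g i) (fl t P) = 0) ∧
    (∃ i, ev (f3 i) (fl t P) ≠ 0) ∧
    ∀ v ∉ S, -Real.log (⨆ i, nvW (av v) (δ3 i) (f3 i) (fl t P)) ≤ c v}

/-- **Integral points of height between `T / 2` and `T`.** -/
theorem itg_dyadic (A : Fin β → AbV K n) (hd : 0 < ∑ b, (A b).dim)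
    (Γ : AddSubgroup (Bp A K)) (hFG : Γ.FG)
    {E1 E2 E3 : Type} [Fintype E1] [Fintype E2] [Fintype E3]
    (g : E1 → MvPolynomial (Option (Fin β) × Fin n) K) (hgh : ∀ i, ∃ γ, MH γ (g i))
    (f2 : E2 → MvPolynomial (Option (Fin β) × Fin n) K) (δ2 : E2 → Option (Fin β) → ℕ)
    (hf2 : ∀ i, MH (δ2 i) (f2 i))
    (f3 : E3 → MvPolynomial (Option (Fin β) × Fin n) K) (δ3 : E3 → Option (Fin β) → ℕ)
    (hf3 : ∀ i, MH (δ3 i) (f3 i))
    (hc2 : ∀ (F : Type) [Field F] [Algebra K F] (t : Fin n → F) (P : Bp A F), t ≠ 0 →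
      (∀ i, ev (g i) (fl t P) = 0) → (∀ i, ev (f2 i) (fl t P) = 0) →
      td (K := K) (vc P) + ((2 : ℕ) : Cardinal) ≤ ((∑ b, (A b).dim : ℕ) : Cardinal))
    (hc3 : ∀ (F : Type) [Field F] [Algebra K F] (t : Fin n → F) (P : Bp A F), t ≠ 0 →
      (∀ i, ev (g i) (fl t P) = 0) → (∀ i, ev (f3 i) (fl t P) = 0) →
      td (K := K) (vc P) + ((1 : ℕ) : Cardinal) ≤ ((∑ b, (A b).dim : ℕ) : Cardinal))
    (k : ℕ) (hk : 0 < k) (e : Fin β → ℕ) (he : ∀ b, 0 < e b)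
    (Θ : E2 → E3 → MvPolynomial (Option (Fin β) × Fin n) K)
    (δ : E2 → E3 → Option (Fin β) → ℕ) (hΘ : ∀ i j, MH (δ i j) (Θ i j))
    (hδ : ∀ i j o, δ i j o + Option.elim o 0 e = k * (δ2 i o + δ3 j o))
    (hrel : ∀ (t : Fin n → K) (P : Bp A K), t ≠ 0 → (∀ i, ev (g i) (fl t P) = 0) →
      ∀ i j i' j', ev (Θ i j) (fl t P) * (ev (f2 i') (fl t P) * ev (f3 j') (fl t P)) ^ k =
        ev (Θ i' j') (fl t P) * (ev (f2 i) (fl t P) * ev (f3 j) (fl t P)) ^ k)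
    (hc : ∀ (F : Type) [Field F] [Algebra K F] (t : Fin n → F) (P : Bp A F), t ≠ 0 →
      (∀ i, ev (g i) (fl t P) = 0) → (∀ i j, ev (Θ i j) (fl t P) = 0) →
      td (K := K) (vc P) + ((1 : ℕ) : Cardinal) ≤ ((∑ b, (A b).dim : ℕ) : Cardinal))
    (S : Finset (FinitePlace K)) (c : FinitePlace K → ℝ) (hcf : {v | c v ≠ 0}.Finite) :
    ∃ N d : ℕ, ∀ T : ℝ, AB.Cov A N d
      {P | P ∈ Itg A Γ g f3 δ3 S c ∧ T / 2 ≤ ht P ∧ ht P ≤ T} := by
  classical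
  obtain ⟨C, hC⟩ := big_le (A := A) f2 δ2 hf2 f3 δ3 hf3 k e he Θ δ hΘ hδ
  have hk0 : (0 : ℝ) < k := by exact_mod_cast hk
  set S2 : Finset (FinitePlace K) := S ∪ hcf.toFinset with hS2
  obtain ⟨N1, d1, h1⟩ := AB.dyadic A hd Γ hFG g hgh f2 δ2 hf2 f3 δ3 hf3 hc2 hc3
    Finset.univ S2 (1 / (2 * k)) (by positivity)
  obtain ⟨N2, d2, h2⟩ := AB.dyadic A hd Γ hFG g hgh f2 δ2 hf2 (fun p : E2 × E3 => Θ p.1 p.2)
    (fun p => δ p.1 p.2) (fun p => hΘ p.1 p.2) hc2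
    (fun F _ _ t P ht0 h3 h4 => hc F t P ht0 h3 (fun i j => h4 (i, j))) ∅ ∅ 1 one_pos
  obtain ⟨c1, c2, T0, hc1, hT0, hcnt⟩ := cnt K n β A Γ hFG
  have hfin : {P | P ∈ Γ ∧ ht P ≤ max T0 (2 * C)}.Finite := (hcnt _ (le_max_left _ _)).1
  obtain ⟨N3, hN3⟩ := AB.cov_finite hd hfin
  refine ⟨(N1 + N2) + N3, max (max d1 d2) 1, fun T => ?_⟩
  refine (((h1 T).union (h2 T)).union hN3).sub ?_
  rintro P ⟨⟨hPΓ, t, ht0, hg, hD, hint⟩, hT1, hT2⟩
  by_cases hsm : ht P ≤ max T0 (2 * C)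
  · exact Or.inr ⟨hPΓ, hsm⟩
  left
  push Not at hsm
  have hbig : 2 * C < ht P := (le_max_right _ _).trans_lt hsm
  by_cases hΘ0 : ∀ i j, ev (Θ i j) (fl t P) = 0
  · right
    exact ⟨⟨⟨hPΓ, hT2⟩, t, ht0, hg, Or.inr (Or.inl (fun p => hΘ0 p.1 p.2))⟩, hT1⟩
  left
  refine ⟨⟨⟨hPΓ, hT2⟩, t, ht0, hg, ?_⟩, hT1⟩
  by_cases hW : ∀ i, ev (f2 i) (fl t P) = 0
  · exact Or.inl hW
  refine Or.inr (Or.inr ?_)
  push Not at hΘ0 hW
  have h3 := hC t P ht0 (hrel t P ht0 hg) hW hD hΘ0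
  have hu : ∀ j, fl t P j ≠ 0 := fl_ne_zero ht0 P
  have h4 := tot_le_part (fun w => -Real.log (⨆ i, nvW w (δ3 i) (f3 i) (fl t P)))
    (FS_neg (FS_logsup δ3 f3 hf3 hu hD)) S2 (fun v hv => by
      rw [hS2, Finset.mem_union, not_or] at hv
      have h5 := hint v hv.1
      have h6 : c v = 0 := by
        by_contra h7
        exact hv.2 (hcf.mem_toFinset.2 h7)
      rw [h6] at h5
      exact h5)
  have h8 : 1 / (2 * (k : ℝ)) * ht P <
      tot (fun w => -Real.log (⨆ i, nvW w (δ2 i) (f2 i) (fl t P))) +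
      (∑ w : InfinitePlace K, (w.mult : ℝ) *
        -Real.log (⨆ i, nvW (ai w) (δ3 i) (f3 i) (fl t P)) +
        ∑ v ∈ S2, -Real.log (⨆ i, nvW (av v) (δ3 i) (f3 i) (fl t P))) := by
    rw [div_mul_eq_mul_div, one_mul, div_lt_iff₀ (by positivity)]
    nlinarith [mul_le_mul_of_nonneg_left h4 hk0.le]
  exact h8

end two

end Pool.Agent.J4H27.LV
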